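import Mathlib
import Pool.Agent.Lib.MP_1dd1a8_co_helper82.Main

set_option autoImplicit false

/-!
# Cyclic designs without short orbits and without disjoint representatives

For `k = 5`, `λ = 4` and `v = 21 * 11 ^ n` there is a cyclic `(v, 5, 4)`-design all of whose blocks
meet every translate of the set of the `x` with `x mod 7 ∈ {0, 3, 4, 5}` in an even number of points.
There are `(v - 1) / 5` block orbits, all of length `v`, so disjoint representatives would cover all
points but one. The covered set and the whole of `ZMod v` both meet these translates in an even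
number of points, but the missing point lies in one of them: a contradiction.
-/

namespace Pool.Agent.Results.MP_1dd1a8_co.FullOrbitDisproof

open scoped Pointwise
open Finset Pool.Agent.Lib.MP_1dd1a8_co Pool.Agent.Lib.MP_1dd1a8_co_helper82

/-- The base block of a translation orbit has the same multiplicity as all other members. -/
lemma count_out {v k l : ℕ} {𝓑 : Multiset (Finset (ZMod v))} (hD : IsCyclicDesign v k l 𝓑)
    (B : Finset (ZMod v)) :
    𝓑.count (Quotient.mk'' B : AddAction.orbitRel.Quotient (ZMod v) (Finset (ZMod v))).out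
      = 𝓑.count B := by
  set O : AddAction.orbitRel.Quotient (ZMod v) (Finset (ZMod v)) := Quotient.mk'' B with hO
  have h1 : B ∈ O.orbit := by rw [AddAction.orbitRel.Quotient.mem_orbit]
  rw [AddAction.orbitRel.Quotient.orbit_eq_orbit_out O Quotient.out_eq'] at h1
  obtain ⟨t, ht⟩ := h1
  rw [← ht]
  exact (hD.shift_count t _).symm

open Classical in
/-- A translation orbit with trivial stabiliser has exactly `v` members. -/
lemma card_fiber {v : ℕ} [NeZero v]
    (O : AddAction.orbitRel.Quotient (ZMod v) (Finset (ZMod v)))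
    (hO : ∀ t : ZMod v, t +ᵥ O.out = O.out → t = 0) :
    #{B : Finset (ZMod v) | (Quotient.mk'' B : AddAction.orbitRel.Quotient (ZMod v)
      (Finset (ZMod v))) = O} = v := by
  have h1 : ({B : Finset (ZMod v) | (Quotient.mk'' B : AddAction.orbitRel.Quotient (ZMod v)
      (Finset (ZMod v))) = O} : Finset _) = Finset.univ.image fun t : ZMod v => t +ᵥ O.out := by
    ext B
    simp only [mem_filter, mem_univ, true_and, mem_image]
    rw [← AddAction.orbitRel.Quotient.mem_orbit,
      AddAction.orbitRel.Quotient.orbit_eq_orbit_out O Quotient.out_eq']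
    rfl
  rw [h1, Finset.card_image_of_injective, Finset.card_univ, ZMod.card]
  intro s t hst
  simp only at hst
  have h2 : (-t + s) +ᵥ O.out = O.out := by
    rw [← vadd_vadd, hst, vadd_vadd, neg_add_cancel, zero_vadd]
  have h3 := hO _ h2
  rw [neg_add_eq_zero] at h3
  exact h3.symm

/-- For every `v₀` there are `v ≥ v₀` and a cyclic `(v, 5, 4)`-design without short orbits that has
no system of disjoint representatives of its block orbits. -/
theorem result : ∀ v₀ : ℕ, ∃ v : ℕ, v₀ ≤ v ∧ ∃ 𝓑 : Multiset (Finset (ZMod v)),
    IsCyclicDesign v 5 4 𝓑 ∧ (∀ B ∈ 𝓑, ∀ t : ZMod v, t +ᵥ B = B → t = 0) ∧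
      ¬ HasDisjointReps 𝓑 := by
  classical
  intro n
  obtain ⟨ι, hι, b, hb⟩ := exists_isDF n
  set v : ℕ := 21 * 11 ^ n with hv
  have hpos : 0 < v := by positivity
  have : NeZero v := ⟨hpos.ne'⟩
  have h7 : 7 ∣ v := ⟨3 * 11 ^ n, by rw [hv]; ring⟩
  have h5 : Nat.Coprime 5 v := by
    have := hb.card
    rw [← this]
    simp
  have hle : n ≤ v := by
    calc n ≤ 11 ^ n := (Nat.lt_pow_self (by norm_num)).le
      _ ≤ v := by rw [hv]; omega
  have hD := isCyclicDesign hb
  have hstab : ∀ B ∈ dev v b, ∀ t : ZMod v, t +ᵥ B = B → t = 0 := fun B hB t ht =>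
    stab_trivial h5 B (hD.card_block B hB) t ht
  refine ⟨v, hle, dev v b, hD, hstab, ?_⟩
  rintro ⟨f, hf, hdisj⟩
  let Q := AddAction.orbitRel.Quotient (ZMod v) (Finset (ZMod v))
  let _ : Fintype Q := Fintype.ofSurjective
    (fun B : Finset (ZMod v) => (Quotient.mk'' B : Q)) Quotient.mk''_surjective
  let m : Q → ℕ := fun O => (dev v b).count O.out
  -- every chosen block is a block of the design
  have hmem : ∀ o : BlockOrbit (dev v b), f o ∈ dev v b := by
    intro o
    have h1 : f o ∈ o.1.orbit := hf o
    rw [AddAction.orbitRel.Quotient.orbit_eq_orbit_out o.1 Quotient.out_eq'] at h1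
    obtain ⟨t, ht⟩ := h1
    have h2 : 0 < (dev v b).count o.1.out := lt_of_le_of_lt (Nat.zero_le _) o.2.isLt
    rw [← Multiset.count_pos, ← ht]
    simp only
    rw [hD.shift_count]
    exact h2
  -- the number of block orbits
  have hblocks : (dev v b).card = ∑ O : Q, v * m O := by
    have h1 : (dev v b).card = ∑ B : Finset (ZMod v), (dev v b).count B := by
      rw [← Multiset.toFinset_sum_count_eq]
      refine Finset.sum_subset (Finset.subset_univ _) ?_
      intro B _ hB
      rw [Multiset.mem_toFinset] at hB
      exact Multiset.count_eq_zero_of_notMem hB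
    rw [h1, ← Finset.sum_fiberwise Finset.univ (fun B => (Quotient.mk'' B : Q))]
    refine Finset.sum_congr rfl fun O _ => ?_
    have h2 : ∑ B ∈ univ.filter (fun B : Finset (ZMod v) => (Quotient.mk'' B : Q) = O),
        (dev v b).count B
        = ∑ _B ∈ univ.filter (fun B : Finset (ZMod v) => (Quotient.mk'' B : Q) = O), m O := by
      refine Finset.sum_congr rfl fun B hB => ?_
      simp only [mem_filter, mem_univ, true_and] at hB
      rw [← hB]
      exact (count_out hD B).symm
    rw [h2, Finset.sum_const, smul_eq_mul]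
    by_cases hm : m O = 0
    · rw [hm, mul_zero, mul_zero]
    · have h3 : O.out ∈ dev v b := Multiset.count_pos.mp (Nat.pos_of_ne_zero hm)
      rw [card_fiber O (hstab _ h3)]
  have hcard : (dev v b).card = Fintype.card ι * v := by
    unfold dev
    rw [Multiset.card_map, Finset.card_val, Finset.card_univ, Fintype.card_prod, ZMod.card]
  rw [← Finset.mul_sum, hcard, mul_comm] at hblocks
  have hN : Fintype.card ι = ∑ O : Q, m O := Nat.eq_of_mul_eq_mul_left hpos hblocks
  -- the union of the chosen blocks
  let BO := Σ O : Q, Fin (m O)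
  let g : BO → Finset (ZMod v) := fun o => f o
  have hBO : Fintype.card BO = Fintype.card ι := by
    rw [hN]
    simp only [BO, Fintype.card_sigma, Fintype.card_fin]
  have hgdisj : ∀ o ∈ (univ : Finset BO), ∀ o' ∈ (univ : Finset BO), o ≠ o' →
      Disjoint (g o) (g o') := fun o _ o' _ hne => hdisj o o' hne
  set U : Finset (ZMod v) := Finset.univ.biUnion g with hU
  have hUcard : U.card = 5 * Fintype.card ι := by
    rw [hU, Finset.card_biUnion hgdisj]
    have h5 : ∑ o : BO, (g o).card = ∑ _o : BO, 5 :=
      Finset.sum_congr rfl fun o _ => hD.card_block _ (hmem o)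
    rw [h5, Finset.sum_const, Finset.card_univ, hBO, smul_eq_mul, mul_comm]
  -- exactly one point is not covered
  have hcompl : (Uᶜ).card = 1 := by
    rw [Finset.card_compl, hUcard, ZMod.card, ← hb.card]
    omega
  obtain ⟨x₀, hx₀⟩ := Finset.card_eq_one.mp hcompl
  set π := ZMod.castHom h7 (ZMod 7) with hπ
  set s : ZMod 7 := -π x₀ with hs
  have hUeven : Even #{x ∈ U | π x + s ∈ S} := by
    rw [hU, Finset.filter_biUnion, Finset.card_biUnion]
    · refine Finset.even_sum _ fun o _ => ?_
      exact even_of_mem hb h7 (hmem o) s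
    · intro o ho o' ho' hne
      exact Disjoint.mono (Finset.filter_subset _ _) (Finset.filter_subset _ _)
        (hgdisj o ho o' ho' hne)
  have hall := even_all h7 s
  have hsplit : #{x : ZMod v | π x + s ∈ S} = #{x ∈ U | π x + s ∈ S} + #{x ∈ Uᶜ | π x + s ∈ S} := by
    rw [← Finset.card_union_of_disjoint, ← Finset.filter_union, Finset.union_compl]
    exact Disjoint.mono (Finset.filter_subset _ _) (Finset.filter_subset _ _) disjoint_compl_right
  have hone : #{x ∈ Uᶜ | π x + s ∈ S} = 1 := by
    rw [hx₀, Finset.filter_singleton, if_pos]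
    · exact Finset.card_singleton _
    · rw [hs, add_neg_cancel]
      decide
  rw [hsplit, hone] at hall
  have := Nat.even_add_one.mp hall
  exact this hUeven

end Pool.Agent.Results.MP_1dd1a8_co.FullOrbitDisproof
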