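import Mathlib
import Pool.Agent.Lib.MP_1dd1a8_co.Design

set_option autoImplicit false

namespace Pool.Agent.Results.MP_1dd1a8_co.ShortOrbitDisproof

open scoped Pointwise
open Finset Pool.Agent.Lib.MP_1dd1a8_co

section

variable {k p : ℕ} [Fact k.Prime] [Fact p.Prime]

lemma card_fullBlocks (h : k < p) : (fullBlocks (k := k) h).card = (p - 1) * (k * p) := by
  unfold fullBlocks
  rw [Multiset.card_map, Finset.card_val, Finset.card_univ, Fintype.card_prod, ZMod.card,
    Fintype.card_subtype_compl, Fintype.card_subtype_eq, ZMod.card]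

lemma card_shortBlocks (h : k < p) : (shortBlocks (k := k) h).card = p := by
  unfold shortBlocks
  rw [Multiset.card_map, Finset.card_val, Finset.card_univ, ZMod.card]

lemma card_design (h : k < p) :
    (design (k := k) h).card = (p - 1) * (k * p) + (k - 1) * p := by
  unfold design
  rw [Multiset.card_add, Multiset.card_nsmul, card_fullBlocks, card_shortBlocks]

lemma vadd_coset (h : k < p) (t : ZMod (k * p)) (y : ZMod p) :
    t +ᵥ coset h y = coset h ((crt k p h t).2 + y) := by
  ext P
  rw [Finset.mem_vadd_finset, mem_coset]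
  constructor
  · rintro ⟨Q, hQ, rfl⟩
    rw [mem_coset] at hQ
    rw [vadd_eq_add, map_add, Prod.snd_add, hQ]
  · intro hP
    refine ⟨P - t, ?_, ?_⟩
    · rw [mem_coset, map_sub, Prod.snd_sub, hP]
      ring
    · rw [vadd_eq_add]
      ring

lemma map_full (h : k < p) (t : ZMod (k * p)) :
    (fullBlocks h).map (fun B => t +ᵥ B) = fullBlocks h := by
  unfold fullBlocks
  rw [Multiset.map_map]
  have h1 := Multiset.map_univ_val_equiv
    ((Equiv.refl {x : ZMod p // x ≠ 0}).prodCongr (Equiv.addLeft t))
  conv_rhs => rw [← h1]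
  rw [Multiset.map_map]
  refine Multiset.map_congr rfl fun i _ => ?_
  simp only [Function.comp_apply, Equiv.prodCongr_apply, Equiv.coe_refl, Equiv.coe_addLeft,
    vadd_vadd, Prod.map_fst, Prod.map_snd, id_eq]

lemma map_short (h : k < p) (t : ZMod (k * p)) :
    (shortBlocks h).map (fun B => t +ᵥ B) = shortBlocks h := by
  unfold shortBlocks
  rw [Multiset.map_map]
  have h1 := Multiset.map_univ_val_equiv (Equiv.addLeft (crt k p h t).2)
  conv_rhs => rw [← h1]
  rw [Multiset.map_map]
  refine Multiset.map_congr rfl fun i _ => ?_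
  simp only [Function.comp_apply, Equiv.coe_addLeft, vadd_coset]

lemma map_design (h : k < p) (t : ZMod (k * p)) :
    (design h).map (fun B => t +ᵥ B) = design h := by
  unfold design
  rw [Multiset.map_add, Multiset.map_nsmul, map_full, map_short]

lemma isCyclicDesign (hk : k ≠ 2) (h : k < p) : IsCyclicDesign (k * p) k (k - 1) (design h) := by
  refine ⟨?_, ?_, ?_⟩
  · intro B hB
    unfold design fullBlocks shortBlocks at hB
    rw [Multiset.mem_add] at hB
    rcases hB with hB | hB
    · rw [Multiset.mem_map] at hB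
      obtain ⟨i, _, rfl⟩ := hB
      rw [Finset.card_vadd_finset]
      exact card_base h i.1.2
    · have hB := Multiset.mem_of_mem_nsmul hB
      rw [Multiset.mem_map] at hB
      obtain ⟨y, _, rfl⟩ := hB
      exact card_coset h y
  · intro P Q hPQ
    unfold design fullBlocks shortBlocks
    rw [Multiset.countP_add, Multiset.countP_nsmul, Multiset.countP_map, Multiset.countP_map]
    have e1 : (Multiset.filter (fun i : Idx k p => P ∈ i.2 +ᵥ base h i.1.1 ∧
        Q ∈ i.2 +ᵥ base h i.1.1) (Finset.univ : Finset (Idx k p)).val).card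
        = #{i : Idx k p | P ∈ i.2 +ᵥ base h i.1.1 ∧ Q ∈ i.2 +ᵥ base h i.1.1} := by
      rw [← Finset.card_val, Finset.filter_val]
    have e2 : (Multiset.filter (fun y : ZMod p => P ∈ coset h y ∧ Q ∈ coset h y)
        (Finset.univ : Finset (ZMod p)).val).card
        = #{y : ZMod p | P ∈ coset h y ∧ Q ∈ coset h y} := by
      rw [← Finset.card_val, Finset.filter_val]
    rw [e1, e2]
    by_cases hy : (crt k p h P).2 = (crt k p h Q).2
    · rw [card_pairs_of_eq h hPQ hy]
      have : ({y : ZMod p | P ∈ coset h y ∧ Q ∈ coset h y} : Finset _)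
          = {(crt k p h P).2} := by
        ext y
        simp only [mem_filter, mem_univ, true_and, mem_coset, mem_singleton]
        constructor
        · rintro ⟨h1, _⟩; exact h1.symm
        · rintro rfl; exact ⟨rfl, hy.symm⟩
      rw [this, Finset.card_singleton]
      simp
    · rw [card_pairs_of_ne hk h hy]
      have : ({y : ZMod p | P ∈ coset h y ∧ Q ∈ coset h y} : Finset _) = ∅ := by
        ext y
        simp only [mem_filter, mem_univ, true_and, mem_coset, notMem_empty, iff_false, not_and]
        rintro rfl h2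
        exact hy h2.symm
      rw [this, Finset.card_empty]
      simp
  · intro t B
    conv_lhs => rw [← map_design h t]
    exact Multiset.count_map_eq_count' _ _ (AddAction.injective t) B

/-- The multiplicity of a member of the short orbit is at least `k - 1`. -/
lemma le_count_coset (h : k < p) (y : ZMod p) : k - 1 ≤ (design h).count (coset h y) := by
  unfold design
  rw [Multiset.count_add, Multiset.count_nsmul]
  have h1 : 1 ≤ (shortBlocks h).count (coset (k := k) h y) := by
    rw [Multiset.one_le_count_iff_mem]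
    unfold shortBlocks
    exact Multiset.mem_map_of_mem _ (Finset.mem_univ y)
  have h2 : (k - 1) * 1 ≤ (k - 1) * (shortBlocks h).count (coset (k := k) h y) :=
    Nat.mul_le_mul_left _ h1
  omega

end

open Classical in
/-- Number of members of a translation orbit of subsets of `ZMod v`. -/
lemma card_fiber_le {v : ℕ} [NeZero v]
    (O : AddAction.orbitRel.Quotient (ZMod v) (Finset (ZMod v))) :
    #{B : Finset (ZMod v) | (Quotient.mk'' B : AddAction.orbitRel.Quotient (ZMod v)
      (Finset (ZMod v))) = O} ≤ v := by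
  have h1 : ({B : Finset (ZMod v) | (Quotient.mk'' B : AddAction.orbitRel.Quotient (ZMod v)
      (Finset (ZMod v))) = O} : Finset _) ⊆ Finset.univ.image fun t : ZMod v => t +ᵥ O.out := by
    intro B hB
    simp only [mem_filter, mem_univ, true_and] at hB
    simp only [mem_image, mem_univ, true_and]
    rw [← AddAction.orbitRel.Quotient.mem_orbit,
      AddAction.orbitRel.Quotient.orbit_eq_orbit_out O Quotient.out_eq'] at hB
    exact hB
  calc _ ≤ _ := Finset.card_le_card h1
    _ ≤ _ := Finset.card_image_le
    _ = v := by rw [Finset.card_univ, ZMod.card]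

lemma count_out {v k l : ℕ} {𝓑 : Multiset (Finset (ZMod v))} (hD : IsCyclicDesign v k l 𝓑)
    (B : Finset (ZMod v)) :
    𝓑.count (Quotient.mk'' B : AddAction.orbitRel.Quotient (ZMod v) (Finset (ZMod v))).out
      = 𝓑.count B := by
  set O : AddAction.orbitRel.Quotient (ZMod v) (Finset (ZMod v)) := Quotient.mk'' B with hO
  have h1 : B ∈ O.orbit := by rw [AddAction.orbitRel.Quotient.mem_orbit]
  rw [AddAction.orbitRel.Quotient.orbit_eq_orbit_out O Quotient.out_eq'] at h1
  obtain ⟨t, ht⟩ := h1
  rw [← ht]
  exact (hD.shift_count t _).symm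

/-- For every odd prime `k` there are arbitrarily large `v` and cyclic `(v, k, k - 1)`-designs
without a system of disjoint representatives of the block orbits. -/
theorem result : ∀ k : ℕ, k.Prime → 3 ≤ k → ∀ v₀ : ℕ, ∃ v : ℕ, v₀ ≤ v ∧
    ∃ 𝓑 : Multiset (Finset (ZMod v)), IsCyclicDesign v k (k - 1) 𝓑 ∧ ¬ HasDisjointReps 𝓑 := by
  intro k hk hk3 v₀
  obtain ⟨p, hpv, hp⟩ := Nat.exists_infinite_primes (k + 1 + v₀)
  have : Fact k.Prime := ⟨hk⟩
  have : Fact p.Prime := ⟨hp⟩
  have h : k < p := by omega
  refine ⟨k * p, ?_, design h, isCyclicDesign (by omega) h, ?_⟩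
  · calc v₀ ≤ p := by omega
      _ ≤ k * p := Nat.le_mul_of_pos_left p (by omega)
  rintro ⟨f, hf, hdisj⟩
  classical
  have : NeZero (k * p) := instNeZeroMul k p
  let Q := AddAction.orbitRel.Quotient (ZMod (k * p)) (Finset (ZMod (k * p)))
  let _ : Fintype Q := Fintype.ofSurjective
    (fun B : Finset (ZMod (k * p)) => (Quotient.mk'' B : Q)) Quotient.mk''_surjective
  let m : Q → ℕ := fun O => (design h).count O.out
  have hD := isCyclicDesign (k := k) (by omega) h
  -- every chosen block has `k` points
  have hcard : ∀ o : BlockOrbit (design h), (f o).card = k := by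
    intro o
    have h1 : f o ∈ o.1.orbit := hf o
    rw [AddAction.orbitRel.Quotient.orbit_eq_orbit_out o.1 Quotient.out_eq'] at h1
    obtain ⟨t, ht⟩ := h1
    have h2 : 0 < (design h).count o.1.out := lt_of_le_of_lt (Nat.zero_le _) o.2.isLt
    have h3 := hD.card_block _ (Multiset.count_pos.mp h2)
    rw [← ht]
    simpa using h3
  -- the chosen blocks fit into the point set
  let BO := Σ O : Q, Fin (m O)
  let g : BO → Finset (ZMod (k * p)) := fun o => f o
  have hN : (∑ O : Q, m O) * k ≤ k * p := by
    have h1 : Fintype.card BO = ∑ O : Q, m O := by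
      simp only [BO, Fintype.card_sigma, Fintype.card_fin]
    have h2 : (Finset.univ.biUnion g).card = ∑ o : BO, (g o).card := by
      apply Finset.card_biUnion
      intro o _ o' _ hne
      exact hdisj o o' hne
    have h3 : ∑ o : BO, (g o).card = Fintype.card BO * k := by
      have h5 : ∑ o : BO, (g o).card = ∑ _o : BO, k := Finset.sum_congr rfl fun o _ => hcard o
      rw [h5]
      simp
    have h4 : (Finset.univ.biUnion g).card ≤ k * p := by
      calc _ ≤ (Finset.univ : Finset (ZMod (k * p))).card := Finset.card_le_univ _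
        _ = k * p := by rw [Finset.card_univ, ZMod.card]
    rw [← h1, ← h3, ← h2]
    exact h4
  -- counting the blocks by orbits
  let fib : Q → ℕ := fun O => #{B : Finset (ZMod (k * p)) | (Quotient.mk'' B : Q) = O}
  have hblocks : (design h).card = ∑ O : Q, fib O * m O := by
    have h1 : (design h).card = ∑ B : Finset (ZMod (k * p)), (design h).count B := by
      rw [← Multiset.toFinset_sum_count_eq]
      refine Finset.sum_subset (Finset.subset_univ _) ?_
      intro B _ hB
      rw [Multiset.mem_toFinset] at hB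
      exact Multiset.count_eq_zero_of_notMem hB
    rw [h1, ← Finset.sum_fiberwise Finset.univ (fun B => (Quotient.mk'' B : Q))]
    refine Finset.sum_congr rfl fun O _ => ?_
    simp only [fib]
    rw [Finset.card_eq_sum_ones, Finset.sum_mul]
    refine Finset.sum_congr rfl fun B hB => ?_
    simp only [mem_filter, mem_univ, true_and] at hB
    rw [one_mul, ← hB]
    exact (count_out hD B).symm
  -- the short orbit
  let O₀ : Q := Quotient.mk'' (coset h 0)
  have hfib0 : fib O₀ ≤ p := by
    have h1 : ({B : Finset (ZMod (k * p)) | (Quotient.mk'' B : Q) = O₀} : Finset _)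
        ⊆ Finset.univ.image fun y : ZMod p => coset h y := by
      intro B hB
      simp only [mem_filter, mem_univ, true_and, O₀] at hB
      have h2 : B ∈ AddAction.orbit (ZMod (k * p)) (coset h 0) := Quotient.exact' hB
      obtain ⟨t, ht⟩ := h2
      simp only [mem_image, mem_univ, true_and]
      exact ⟨(crt k p h t).2 + 0, by rw [← vadd_coset]; exact ht⟩
    calc fib O₀ ≤ _ := Finset.card_le_card h1
      _ ≤ _ := Finset.card_image_le
      _ = p := by rw [Finset.card_univ, ZMod.card]
  have hm0 : k - 1 ≤ m O₀ := by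
    have h1 := count_out hD (coset h 0)
    simp only [m, O₀]
    rw [h1]
    exact le_count_coset h 0
  have hfib : ∀ O, fib O ≤ k * p := fun O => card_fiber_le O
  -- the final estimate
  have hup : (design h).card + (k * p - p) * m O₀ ≤ (k * p) * ∑ O : Q, m O := by
    rw [hblocks, ← Finset.add_sum_erase Finset.univ (fun O => fib O * m O) (Finset.mem_univ O₀),
      ← Finset.add_sum_erase Finset.univ m (Finset.mem_univ O₀)]
    have h1 : ∑ O ∈ Finset.univ.erase O₀, fib O * m O
        ≤ (k * p) * ∑ O ∈ Finset.univ.erase O₀, m O := by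
      rw [Finset.mul_sum]
      exact Finset.sum_le_sum fun O _ => Nat.mul_le_mul_right _ (hfib O)
    have h2 : fib O₀ * m O₀ ≤ p * m O₀ := Nat.mul_le_mul_right _ hfib0
    have h3 : p * m O₀ + (k * p - p) * m O₀ = (k * p) * m O₀ := by
      rw [← add_mul]
      congr 1
      have : p ≤ k * p := Nat.le_mul_of_pos_left p (by omega)
      omega
    rw [mul_add]
    omega
  rw [card_design] at hup
  -- arithmetic
  obtain ⟨k', rfl⟩ : ∃ k', k = k' + 3 := ⟨k - 3, by omega⟩
  obtain ⟨p', rfl⟩ : ∃ p', p = p' + 1 := ⟨p - 1, by omega⟩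
  have e1 : (k' + 3) * (p' + 1) - (p' + 1) = (k' + 2) * (p' + 1) := by
    have : (k' + 3) * (p' + 1) = (k' + 2) * (p' + 1) + (p' + 1) := by ring
    omega
  rw [e1] at hup
  simp only [Nat.add_sub_cancel, Nat.add_succ_sub_one] at hup hm0
  generalize ∑ O : Q, m O = N at hN hup
  generalize m O₀ = M at hm0 hup
  have hN' : N ≤ p' + 1 := by
    by_contra hcon
    push Not at hcon
    have : (p' + 2) * (k' + 3) ≤ N * (k' + 3) := Nat.mul_le_mul_right _ hcon
    nlinarith
  have h5 : ((k' + 3) * (p' + 1)) * N ≤ ((k' + 3) * (p' + 1)) * (p' + 1) :=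
    Nat.mul_le_mul_left _ hN'
  have h6 : (k' + 2) * (p' + 1) * (k' + 2) ≤ (k' + 2) * (p' + 1) * M :=
    Nat.mul_le_mul_left _ hm0
  nlinarith

end Pool.Agent.Results.MP_1dd1a8_co.ShortOrbitDisproof
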